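import Pool.Agent.Lib.MP_09bd9b_co.All

set_option autoImplicit false

/-!
Let `D` and `s` be given. There is a constant `c` such that for every `n` there is a graph `G` on at
most `c * n ^ (6 * (D + 1) ^ 3)` vertices such that in every colouring of the edges of `G` with two
colours one colour contains induced copies of ALL `n`-vertex graphs `H` which are subgraphs of the
strong product of a graph `J` of maximum degree at most `D` and the complete graph on `s` vertices.
The maximum degree of `H` can be `(D + 1) * s - 1`; the exponent depends on `D` only. For example
the class with `D = 3 ^ d - 1` contains (for large `s`) all subgraphs of the `r`-th power of the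
`d`-dimensional grid, for every `r`.

Idea of the proof. Let `q = (D + 1) ^ 3`, let `F` be a field with about `n ^ 2` elements. The
vertices of `G` are the tuples `(b, i, l, r, c)` with `b` in a finite graph `GB`, `i` one of `t`
classes, `l` a vector of `q` labels from `Fin K × F`, and `r, c` polynomials over `F` of degree
less than `q`; two vertices are adjacent if the first coordinates are adjacent in `GB` and either
the rest of the tuples is equal, or the classes are different, the label vectors agree somewhere
and the values of the polynomials `r, c` of one of them at the point of the class of the other one
are those of the polynomials `c, r` of the other one. A table `w` of labels and a polynomial `x` in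
two variables determine a finite structure in `G` in which all pairs over adjacent vertices of `GB`
with agreeing labels are adjacent. By a finite Ramsey theorem (an ordered induced Ramsey theorem for
`GB` and Ramsey's theorem for hypergraphs) the colouring of each of these structures contains
a homogeneous pattern of one of two kinds: either pairs of vertices with equal position and pairs
with different positions (in a suitable choice of classes and labels) have the same colour, or all
pairs in a suitable strip, in different classes and with agreeing labels, have the same colour.
One pattern occurs for a positive fraction of all `(w, x)`. By dependent random choice a dense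
`k`-partite `k`-uniform hypergraph contains all `k`-partite hypergraphs of bounded degree with few
vertices. It is used with `k = q ^ 2` (coefficients of `x`; the row and column polynomials follow
the graph `J`, and the vertices of `H` over one vertex of `J` are put at one position) or
`k = q * K` (entries of `w`; the label with index `a` of a vertex is the name of the vertex of
colour `a` near to it in `J`, and all vertices of `H` over one vertex of `J` have the same labels).
-/

namespace Pool.Agent.Results.MP_09bd9b_co.CoarseDegree

/-- `H` is a subgraph of the strong product of a graph `J` of maximum degree at most `D` and the
complete graph on `s` vertices (`β z` is the first coordinate of the vertex `z`) -/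
def Coarse (D s : ℕ) {V : Type} (H : SimpleGraph V) : Prop :=
  ∃ (W : Type) (J : SimpleGraph W) (β : V → W), (∀ w, (J.neighborSet w).encard ≤ D) ∧
    (∀ w, (β ⁻¹' {w}).encard ≤ s) ∧ ∀ z z', H.Adj z z' → β z = β z' ∨ J.Adj (β z) (β z')

theorem result (D s : ℕ) : ∃ c : ℕ, ∀ n : ℕ, ∃ N : ℕ, N ≤ c * n ^ (6 * (D + 1) ^ 3) ∧
    ∃ G : SimpleGraph (Fin N), ∀ col : Sym2 (Fin N) → Bool, ∃ b : Bool,
      ∀ H : SimpleGraph (Fin n), Coarse D s H →
        ∃ f : H ↪g G, ∀ u v : Fin n, H.Adj u v → col s(f u, f v) = b :=
  Pool.Agent.Lib.MP_09bd9b_co.coarse D s

end Pool.Agent.Results.MP_09bd9b_co.CoarseDegree
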